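import Pool.Graph.R_seed8.H282R4.PU.FinalU
import Pool.Agent.H40.PK.Final

/-!
# MP_e85462_co: the wasted area in packing unit squares in a square of side `w`

`1 - f(w)` has exact order `w^(-7/5)` for `w = k + 1/2`, and for every `w ≥ 1` with
`w (w - ⌊w⌋) ≥ 1/6` it is at least `c ‖w‖^(3/5) w^(-7/5)`.
-/

namespace Pool.Agent.Results.MP_e85462_co.ExactOrderAllSides

open H282R4.PK
open H282R3.SQ (USq)

/-- maximum packing density `f(w) = N(w)/w²`; `N(w) = packNum w` is the largest number of closed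
unit squares with pairwise disjoint interiors that fit in a closed square of side `w` -/
noncomputable def density (w : ℝ) : ℝ := (packNum w : ℝ) / w ^ 2

/-- `‖w‖`: the distance from `w` to the nearest integer -/
noncomputable def dist1 (w : ℝ) : ℝ := |w - round w|

/-- the wasted area for a side `w` which is not an integer -/
theorem waste_ge_min {w : ℝ} (hw : 1 ≤ w) (hf : 0 < Int.fract w) :
    1 / 10 ^ 30 * min (dist1 w * w) ((dist1 w * w) ^ ((3 : ℝ) / 5)) ≤ w ^ 2 - packNum w := by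
  have hd : dist1 w = min (Int.fract w) (1 - Int.fract w) := abs_sub_round_eq_min w
  have h1 : Int.fract w < 1 := Int.fract_lt_one w
  have hn : (⌊w⌋₊ : ℝ) + Int.fract w = w := by
    have h2 : ((⌊w⌋₊ : ℤ) : ℝ) = (⌊w⌋ : ℝ) := by
      rw [Int.natCast_floor_eq_floor (by linarith)]
    have h3 := Int.floor_add_fract w
    have h4 : ((⌊w⌋₊ : ℤ) : ℝ) = (⌊w⌋₊ : ℝ) := by push_cast; rfl
    linarith
  have hn1 : 1 ≤ ⌊w⌋₊ := Nat.le_floor (by exact_mod_cast hw)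
  obtain ⟨Q, hin, hdj⟩ := pack_USq (packNum_isGreatest (w := w) (by linarith)).1
  have key := H40.PK.waste_lower (n := ⌊w⌋₊) (N := packNum w) (sg := Int.fract w) (d := dist1 w)
    hn1 (by rw [hd]; exact lt_min hf (by linarith)) (by rw [hd]; exact min_le_left _ _)
    (by rw [hd]; exact min_le_right _ _) Q (by rw [H40.PK.box, hn]; exact hin) hdj
  rwa [hn] at key

/-- the wasted area is at least `c (1 + ‖w‖ w)^(3/5)` as soon as `w (w - ⌊w⌋) ≥ 1/6` -/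
theorem waste_ge {w : ℝ} (hw : 1 ≤ w) (hf : 1 / 6 ≤ w * Int.fract w) :
    1 / 10 ^ 32 * (1 + dist1 w * w) ^ ((3 : ℝ) / 5) ≤ w ^ 2 - packNum w := by
  have hd : dist1 w = min (Int.fract w) (1 - Int.fract w) := abs_sub_round_eq_min w
  have hf0 : 0 < Int.fract w := by
    by_contra hcon
    nlinarith [Int.fract_nonneg w]
  have h1 : Int.fract w < 1 := Int.fract_lt_one w
  have hd0 : 0 < dist1 w := by rw [hd]; exact lt_min hf0 (by linarith)
  have hz0 : 0 < dist1 w * w := by positivity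
  rcases le_or_gt (1 / 6) (dist1 w * w) with hz | hz
  · -- `z ≥ 1/6`
    have key := waste_ge_min hw hf0
    refine le_trans ?_ key
    have h2 : 1 / 100 * (1 + dist1 w * w) ^ ((3 : ℝ) / 5) ≤
        min (dist1 w * w) ((dist1 w * w) ^ ((3 : ℝ) / 5)) := by
      have h3 : 0 < (dist1 w * w) ^ ((3 : ℝ) / 5) := Real.rpow_pos_of_pos hz0 _
      have h30 : (1 + dist1 w * w) ^ ((3 : ℝ) / 5) ≤ 7 * (dist1 w * w) ^ ((3 : ℝ) / 5) :=
        calc (1 + dist1 w * w) ^ ((3 : ℝ) / 5)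
            ≤ (7 * (dist1 w * w)) ^ ((3 : ℝ) / 5) :=
              Real.rpow_le_rpow (by linarith) (by linarith) (by norm_num)
          _ = 7 ^ ((3 : ℝ) / 5) * (dist1 w * w) ^ ((3 : ℝ) / 5) :=
              Real.mul_rpow (by norm_num) hz0.le
          _ ≤ 7 * (dist1 w * w) ^ ((3 : ℝ) / 5) := by
              gcongr
              calc (7 : ℝ) ^ ((3 : ℝ) / 5) ≤ 7 ^ (1 : ℝ) :=
                    Real.rpow_le_rpow_of_exponent_le (by norm_num) (by norm_num)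
                _ = 7 := Real.rpow_one _
      refine le_min ?_ (by linarith)
      have h4 : (dist1 w * w) ^ ((2 : ℝ) / 5) * (dist1 w * w) ^ ((3 : ℝ) / 5) =
          dist1 w * w := by
        rw [← Real.rpow_add hz0]; norm_num
      have h5 : (1 / 6 : ℝ) ≤ (dist1 w * w) ^ ((2 : ℝ) / 5) :=
        calc (1 / 6 : ℝ) = (1 / 6 : ℝ) ^ (1 : ℝ) := (Real.rpow_one _).symm
          _ ≤ (1 / 6 : ℝ) ^ ((2 : ℝ) / 5) :=
            Real.rpow_le_rpow_of_exponent_ge (by norm_num) (by norm_num) (by norm_num)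
          _ ≤ _ := Real.rpow_le_rpow (by norm_num) hz (by norm_num)
      nlinarith
    calc 1 / 10 ^ 32 * (1 + dist1 w * w) ^ ((3 : ℝ) / 5)
        = 1 / 10 ^ 30 * (1 / 100 * (1 + dist1 w * w) ^ ((3 : ℝ) / 5)) := by ring
      _ ≤ _ := by gcongr
  · -- `z < 1/6`: `w` is just below an integer and one square is missing
    have hlt : 1 - Int.fract w < Int.fract w := by
      by_contra hcon
      push Not at hcon
      rw [hd, min_eq_left hcon] at hz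
      linarith [mul_comm w (Int.fract w)]
    have hd' : dist1 w = 1 - Int.fract w := by rw [hd]; exact min_eq_right hlt.le
    set m : ℕ := ⌊w⌋₊ + 1 with hm
    have hn : (m : ℝ) = w + dist1 w := by
      have h2 : ((⌊w⌋₊ : ℤ) : ℝ) = (⌊w⌋ : ℝ) := by
        rw [Int.natCast_floor_eq_floor (by linarith)]
      have h3 := Int.floor_add_fract w
      have h4 : ((⌊w⌋₊ : ℤ) : ℝ) = (⌊w⌋₊ : ℝ) := by push_cast; rfl
      rw [hm, hd']; push_cast; linarith
    have hle : (packNum w : ℝ) ≤ w ^ 2 :=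
      pack_le (by linarith) (packNum_isGreatest (w := w) (by linarith)).1
    have hlt2 : packNum w < m ^ 2 := by
      have : (packNum w : ℝ) < (m : ℝ) ^ 2 := by rw [hn]; nlinarith
      exact_mod_cast this
    have hle2 : (packNum w : ℝ) + 1 ≤ (m : ℝ) ^ 2 := by exact_mod_cast hlt2
    have hd2 : dist1 w ≤ 1 / 2 := by linarith
    have h6 : (1 + dist1 w * w) ^ ((3 : ℝ) / 5) ≤ 2 :=
      calc (1 + dist1 w * w) ^ ((3 : ℝ) / 5) ≤ (1 + dist1 w * w) ^ (1 : ℝ) :=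
            Real.rpow_le_rpow_of_exponent_le (by linarith) (by norm_num)
        _ = 1 + dist1 w * w := Real.rpow_one _
        _ ≤ 2 := by linarith
    rw [hn] at hle2
    have h7 : (1 : ℝ) / 10 ≤ w ^ 2 - packNum w := by nlinarith
    have h8 : (1 : ℝ) / 10 ^ 32 * (1 + dist1 w * w) ^ ((3 : ℝ) / 5) ≤ 1 / 10 ^ 32 * 2 := by gcongr
    have h9 : (1 : ℝ) / 10 ^ 32 * 2 ≤ 1 / 10 := by norm_num
    linarith

/-- the axis-parallel grid -/
theorem canPack_grid {w : ℝ} {n : ℕ} (h : (n : ℝ) ≤ w) : CanPack w (n * n) := by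
  apply H282R4.PU.upper_canPack
  refine ⟨fun k => ⟨((finProdFinEquiv.symm k).1 : ℕ) + 1 / 2,
    ((finProdFinEquiv.symm k).2 : ℕ) + 1 / 2, 1, 0, by norm_num⟩, ?_, ?_⟩
  · rintro k ⟨z1, z2⟩ ⟨h1, h2⟩
    simp only [USq.X, USq.Y, abs_lt] at h1 h2
    have e1 : (((finProdFinEquiv.symm k).1 : ℕ) : ℝ) + 1 ≤ n := by
      exact_mod_cast (finProdFinEquiv.symm k).1.2
    have e2 : (((finProdFinEquiv.symm k).2 : ℕ) : ℝ) + 1 ≤ n := by
      exact_mod_cast (finProdFinEquiv.symm k).2.2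
    have e3 : (0 : ℝ) ≤ (((finProdFinEquiv.symm k).1 : ℕ) : ℝ) := Nat.cast_nonneg _
    have e4 : (0 : ℝ) ≤ (((finProdFinEquiv.symm k).2 : ℕ) : ℝ) := Nat.cast_nonneg _
    refine ⟨⟨?_, ?_⟩, ?_, ?_⟩ <;> linarith [h1.1, h1.2, h2.1, h2.2]
  · intro k l hkl
    rw [Set.disjoint_left]
    rintro ⟨z1, z2⟩ ⟨h1, h2⟩ ⟨h3, h4⟩
    simp only [USq.X, USq.Y, abs_lt] at h1 h2 h3 h4
    apply hkl
    apply finProdFinEquiv.symm.injective
    ext
    · have e1 : (((finProdFinEquiv.symm k).1 : ℕ) : ℝ) < ((finProdFinEquiv.symm l).1 : ℕ) + 1 := by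
        linarith [h1.1, h1.2, h3.1, h3.2]
      have e2 : (((finProdFinEquiv.symm l).1 : ℕ) : ℝ) < ((finProdFinEquiv.symm k).1 : ℕ) + 1 := by
        linarith [h1.1, h1.2, h3.1, h3.2]
      have e1' : ((finProdFinEquiv.symm k).1 : ℕ) < ((finProdFinEquiv.symm l).1 : ℕ) + 1 := by
        exact_mod_cast e1
      have e2' : ((finProdFinEquiv.symm l).1 : ℕ) < ((finProdFinEquiv.symm k).1 : ℕ) + 1 := by
        exact_mod_cast e2
      omega
    · have e1 : (((finProdFinEquiv.symm k).2 : ℕ) : ℝ) < ((finProdFinEquiv.symm l).2 : ℕ) + 1 := by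
        linarith [h2.1, h2.2, h4.1, h4.2]
      have e2 : (((finProdFinEquiv.symm l).2 : ℕ) : ℝ) < ((finProdFinEquiv.symm k).2 : ℕ) + 1 := by
        linarith [h2.1, h2.2, h4.1, h4.2]
      have e1' : ((finProdFinEquiv.symm k).2 : ℕ) < ((finProdFinEquiv.symm l).2 : ℕ) + 1 := by
        exact_mod_cast e1
      have e2' : ((finProdFinEquiv.symm l).2 : ℕ) < ((finProdFinEquiv.symm k).2 : ℕ) + 1 := by
        exact_mod_cast e2
      omega

/-- just above an integer, the grid is the best packing -/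
theorem packNum_eq {w : ℝ} (hw : 1 ≤ w) (hf : w * Int.fract w < 1 / 6) :
    packNum w = ⌊w⌋₊ ^ 2 := by
  have hG := packNum_isGreatest (w := w) (by linarith)
  have hlow : ⌊w⌋₊ ^ 2 ≤ packNum w := by
    rw [sq]
    exact hG.2 (canPack_grid (Nat.floor_le (by linarith)))
  have hle : (packNum w : ℝ) ≤ w ^ 2 := pack_le (by linarith) hG.1
  have hn : (⌊w⌋₊ : ℝ) = w - Int.fract w := by
    have h2 : ((⌊w⌋₊ : ℤ) : ℝ) = (⌊w⌋ : ℝ) := by
      rw [Int.natCast_floor_eq_floor (by linarith)]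
    have h3 := Int.floor_add_fract w
    have h4 : ((⌊w⌋₊ : ℤ) : ℝ) = (⌊w⌋₊ : ℝ) := by push_cast; rfl
    linarith
  have h5 : packNum w < ⌊w⌋₊ ^ 2 + 1 := by
    have : (packNum w : ℝ) < (⌊w⌋₊ : ℝ) ^ 2 + 1 := by
      rw [hn]; nlinarith [Int.fract_nonneg w]
    exact_mod_cast this
  omega

theorem rpow_div {w : ℝ} (hw : 0 < w) : w ^ (-(7 : ℝ) / 5) = w ^ ((3 : ℝ) / 5) / w ^ 2 := by
  rw [← Real.rpow_natCast, ← Real.rpow_sub hw]
  norm_num

theorem lower {w : ℝ} (hw : 1 ≤ w) (hf : 1 / 6 ≤ w * Int.fract w) :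
    1 / 10 ^ 32 * (1 + dist1 w * w) ^ ((3 : ℝ) / 5) / w ^ 2 ≤ 1 - density w := by
  have hx : (0 : ℝ) < w := by linarith
  have h1 := waste_ge hw hf
  unfold density
  rw [one_sub_div (by positivity)]
  gcongr

theorem upper : ∃ C : ℝ, 0 < C ∧ ∀ w : ℝ, 1 ≤ w → 1 - density w ≤ C * w ^ (-(7 : ℝ) / 5) := by
  obtain ⟨C, hC, hup⟩ := H282R4.PU.waste_upper
  refine ⟨C, hC, fun w hw => ?_⟩
  have hx : (0 : ℝ) < w := by linarith
  have h1 := hup w hw
  unfold density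
  unfold Waste at h1
  rw [rpow_div hx, ← mul_div_assoc, one_sub_div (by positivity)]
  gcongr

theorem dist1_half (k : ℕ) : dist1 ((k : ℝ) + 1 / 2) = 1 / 2 ∧ Int.fract ((k : ℝ) + 1 / 2) = 1 / 2 := by
  have h : Int.fract ((k : ℝ) + 1 / 2) = 1 / 2 := by
    rw [Int.fract_natCast_add, Int.fract_eq_self]; norm_num
  refine ⟨?_, h⟩
  rw [dist1, abs_sub_round_eq_min, h]; norm_num

/-- away from the integers the exact order is `w^(-7/5)` -/
theorem lower_away {δ w : ℝ} (hδ : 0 < δ) (hw : 1 ≤ w) (hd : δ ≤ dist1 w) :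
    1 / 10 ^ 30 * δ * w ^ (-(7 : ℝ) / 5) ≤ 1 - density w := by
  have hx : (0 : ℝ) < w := by linarith
  have hd0 : 0 < dist1 w := by linarith
  have hd1 : dist1 w = min (Int.fract w) (1 - Int.fract w) := abs_sub_round_eq_min w
  have hf : 0 < Int.fract w := by
    have := min_le_left (Int.fract w) (1 - Int.fract w)
    linarith
  have hd2 : dist1 w ≤ 1 := by
    have := min_le_left (Int.fract w) (1 - Int.fract w)
    linarith [Int.fract_lt_one w]
  have h1 := waste_ge_min hw hf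
  have hw1 : w ^ ((3 : ℝ) / 5) ≤ w :=
    calc w ^ ((3 : ℝ) / 5) ≤ w ^ (1 : ℝ) :=
          Real.rpow_le_rpow_of_exponent_le hw (by norm_num)
      _ = w := Real.rpow_one _
  have hw0 : 0 < w ^ ((3 : ℝ) / 5) := Real.rpow_pos_of_pos hx _
  have h2 : δ * w ^ ((3 : ℝ) / 5) ≤ min (dist1 w * w) ((dist1 w * w) ^ ((3 : ℝ) / 5)) := by
    refine le_min (by gcongr) ?_
    rw [Real.mul_rpow hd0.le hx.le]
    have h3 : δ ≤ dist1 w ^ ((3 : ℝ) / 5) :=
      calc δ ≤ dist1 w := hd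
        _ = dist1 w ^ (1 : ℝ) := (Real.rpow_one _).symm
        _ ≤ dist1 w ^ ((3 : ℝ) / 5) :=
          Real.rpow_le_rpow_of_exponent_ge hd0 hd2 (by norm_num)
    gcongr
  have h4 : 1 / 10 ^ 30 * δ * w ^ ((3 : ℝ) / 5) ≤ w ^ 2 - packNum w := by
    refine le_trans ?_ h1
    rw [mul_assoc]
    gcongr
  unfold density
  rw [rpow_div hx, ← mul_div_assoc, one_sub_div (by positivity)]
  gcongr

/-- (1) Q1: `1 - f(w)` has exact order `w^(-7/5)` for `w = k + 1/2`. (2) For every `δ > 0` the same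
holds for all real `w ≥ 1` with `‖w‖ ≥ δ`. (3) For every real `w ≥ 1` with `w (w - ⌊w⌋) ≥ 1/6`,
`1 - f(w) ≥ 10^(-32) (1 + ‖w‖ w)^(3/5) / w²`. (4) For the other `w ≥ 1`, `N(w) = ⌊w⌋²`. (5) For
every real `w ≥ 1`, `1 - f(w) ≤ C w^(-7/5)`. -/
theorem result :
    (∃ c C : ℝ, 0 < c ∧ 0 < C ∧ ∀ k : ℕ, 1 ≤ k →
      c * ((k : ℝ) + 1 / 2) ^ (-(7 : ℝ) / 5) ≤ 1 - density ((k : ℝ) + 1 / 2) ∧
      1 - density ((k : ℝ) + 1 / 2) ≤ C * ((k : ℝ) + 1 / 2) ^ (-(7 : ℝ) / 5)) ∧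
    (∀ δ : ℝ, 0 < δ → ∃ c C : ℝ, 0 < c ∧ 0 < C ∧ ∀ w : ℝ, 1 ≤ w → δ ≤ dist1 w →
      c * w ^ (-(7 : ℝ) / 5) ≤ 1 - density w ∧ 1 - density w ≤ C * w ^ (-(7 : ℝ) / 5)) ∧
    (∀ w : ℝ, 1 ≤ w → 1 / 6 ≤ w * (w - ⌊w⌋) →
      1 / 10 ^ 32 * (1 + dist1 w * w) ^ ((3 : ℝ) / 5) / w ^ 2 ≤ 1 - density w) ∧
    (∀ w : ℝ, 1 ≤ w → w * (w - ⌊w⌋) < 1 / 6 → packNum w = ⌊w⌋₊ ^ 2) ∧
    (∃ C : ℝ, 0 < C ∧ ∀ w : ℝ, 1 ≤ w → 1 - density w ≤ C * w ^ (-(7 : ℝ) / 5)) := by
  obtain ⟨C, hC, hup⟩ := upper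
  refine ⟨⟨1 / 10 ^ 30 * (1 / 2), C, by norm_num, hC, fun k hk => ?_⟩,
    fun δ hδ => ⟨1 / 10 ^ 30 * δ, C, by positivity, hC, fun w hw hd =>
      ⟨lower_away hδ hw hd, hup w hw⟩⟩,
    fun w hw hf => lower hw hf, fun w hw hf => packNum_eq hw hf, upper⟩
  have hk1 : (1 : ℝ) ≤ k := by exact_mod_cast hk
  exact ⟨lower_away (by norm_num) (by linarith) (dist1_half k).1.ge, hup _ (by linarith)⟩

end Pool.Agent.Results.MP_e85462_co.ExactOrderAllSides
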